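import Pool.Agent.L5helper86.RB.All
import Pool.Agent.L5helper86.RB.Gap
import Pool.Agent.L5helper64.RB.G
import Pool.Agent.L5helper9.RB.In
import Pool.Agent.L5helper86.RB.Rat
import Pool.Agent.L5helper86.RB.Sq
import Pool.Agent.L5helper86.RB.Un

/-!
# Generalized Wagstaff numbers in almost every base

The base is replaced by a random profinite integer, that is, by independent uniform residues modulo the primes;
`(b^n + 1)/(b + 1)` keeps its form. For an integer base `b ≥ 2` and a prime `n ≥ 5` the number `(b^n + 1)/(b + 1)` is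
prime iff it has no prime factor up to `e^(θ n)` with `θ = (log b)/2`. The theorem gives, for every `θ > 0`, the law of
the odd primes `n` for which `(b^n + 1)/(b + 1)` has no prime factor up to `e^(θ n)`: in all windows, for almost every
base, and as a normal order for the ordinary integers `b < B` as soon as `B ≥ exp(C x ^ 2)`. The expected number of such
`n ≤ x` has the order `log x`. The last part (with files of helper2) replaces `-b` by independent random units and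
uses the condition of the question, `l ^ 2 ≤ (b ^ n + 1) / (b + 1)`, for all integers `b ≥ 2` at once.
-/

set_option autoImplicit false

open Finset MeasureTheory ProbabilityTheory Filter Topology
open scoped ENNReal

namespace Pool.Agent.Results.MP_ce8d0c_nt.AlmostEveryBase

open Pool.Agent

/-- independent uniform residues `X p`, one modulo each prime `p` -/
structure Residues {Ω : Type} [MeasurableSpace Ω] (P : Measure Ω) (X : ℕ → Ω → ℕ) : Prop where
  prob : IsProbabilityMeasure P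
  meas : ∀ p, Measurable (X p)
  ind : iIndepFun (fun p : Nat.Primes => X p) P
  unif : ∀ p r : ℕ, p.Prime → r < p → P.real {ω | X p ω = r} = 1 / p

/-- `1 - b + b² - … + b^(n-1)` modulo `p` -/
def value (p b n : ℕ) : ZMod p := ∑ i ∈ range n, (-(b : ZMod p)) ^ i

/-- no prime `p ≤ z` divides `1 - b + b² - … + b^(n-1)`, where the base has the residue `b p` modulo `p` -/
def NoFactor (z : ℝ) (b : ℕ → ℕ) (n : ℕ) : Prop := ∀ p : ℕ, p.Prime → (p : ℝ) ≤ z → value p (b p) n ≠ 0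

/-- the primes up to `z` -/
noncomputable def primesTo (z : ℝ) : Finset ℕ := (Icc 1 ⌊z⌋₊).filter Nat.Prime

/-- the product over the primes `p ≤ e^(θ n)` of `1 - k/p`, `k = 1` if `p = n`, `k = n - 1` if `p ≡ 1` mod `n`, else
`k = 0` -/
noncomputable def prob (θ : ℝ) (n : ℕ) : ℝ :=
  ∏ p ∈ primesTo (Real.exp (θ * n)), (1 - ((if p = n then 1 else if p % n = 1 then n - 1 else 0 : ℕ) : ℝ) / p)

/-- the odd primes -/
def oddPrimes : Set ℕ := {n | n.Prime ∧ n ≠ 2}

open Classical in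
/-- the number of the `n` in `S`, `x < n ≤ y`, such that no prime `p ≤ e^(θ n)` divides `1 - b + … + b^(n-1)` -/
noncomputable def count (θ : ℝ) (b : ℕ → ℕ) (S : Set ℕ) (x y : ℕ) : ℕ :=
  #((Ioc x y).filter fun n => n ∈ S ∧ NoFactor (Real.exp (θ * n)) b n)

open Classical in
/-- the sum of `prob θ n` over the `n` in `S`, `x < n ≤ y` -/
noncomputable def expected (θ : ℝ) (S : Set ℕ) (x y : ℕ) : ℝ := ∑ n ∈ (Ioc x y).filter (· ∈ S), prob θ n

/-- independent random numbers `g l`; for a prime `l` the number `g l` is uniformly distributed in `{1, ..., l - 1}` -/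
structure Units {Ω : Type} [MeasurableSpace Ω] (P : Measure Ω) (g : ℕ → Ω → ℕ) : Prop where
  prob : IsProbabilityMeasure P
  meas : ∀ l, Measurable (g l)
  indep : iIndepFun g P
  unif : ∀ l : ℕ, l.Prime → ∀ u : ℕ, 1 ≤ u → u < l → P {ω | g l ω = u} = ((l - 1 : ℕ) : ℝ≥0∞)⁻¹

/-- no prime `l` with `l ^ 2 ≤ (b ^ n + 1) / (b + 1)` has `orderOf (g l) = n` modulo `l` -/
def Good (b : ℕ) (g : ℕ → ℕ) (n : ℕ) : Prop :=
  ∀ l : ℕ, l.Prime → l ^ 2 ≤ (b ^ n + 1) / (b + 1) → orderOf ((g l : ℕ) : ZMod l) ≠ n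

lemma prob_eq {θ : ℝ} {n : ℕ} (hn : n.Prime) (hn2 : n ≠ 2) : prob θ n = L5helper86.RB.Pn (Real.exp (θ * n)) n := by
  unfold prob L5helper86.RB.Pn
  refine prod_congr rfl fun p hp => ?_
  rw [L5helper86.RB.card_rts hn hn2 (L5helper86.RB.mem_pz.1 hp).1]

lemma expected_eq {θ : ℝ} {S : Set ℕ} (hS : S ⊆ oddPrimes) (x y : ℕ) : expected θ S x y = L5helper86.RB.EW θ S x y := by
  classical
  unfold expected L5helper86.RB.EW
  refine sum_congr rfl fun n hn => ?_
  have h := hS (mem_filter.1 hn).2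
  exact prob_eq h.1 h.2

lemma indicator_eq {θ : ℝ} {S : Set ℕ} (hS : S ⊆ oddPrimes) :
    S.indicator (prob θ) = S.indicator fun n : ℕ => L5helper86.RB.Pn (Real.exp (θ * n)) n := by
  funext n
  by_cases hn : n ∈ S
  · rw [Set.indicator_of_mem hn, Set.indicator_of_mem hn]
    exact prob_eq (hS hn).1 (hS hn).2
  · rw [Set.indicator_of_notMem hn, Set.indicator_of_notMem hn]

lemma count_eq (θ : ℝ) (b : ℕ → ℕ) (S : Set ℕ) (x y : ℕ) : count θ b S x y = L5helper86.RB.wn θ b S x y := rfl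

open Classical in
theorem result :
    -- the model
    (∃ (Ω : Type) (_ : MeasurableSpace Ω) (P : Measure Ω) (X : ℕ → Ω → ℕ), Residues P X) ∧
    (∀ {Ω : Type} [MeasurableSpace Ω] (P : Measure Ω) (X : ℕ → Ω → ℕ), Residues P X →
      (∀ θ : ℝ, 0 < θ →
        (∀ n ∈ oddPrimes, P.real {ω | NoFactor (Real.exp (θ * n)) (fun p => X p ω) n} = prob θ n) ∧
        (∃ K : ℝ, 0 < K ∧ ∀ᵐ ω ∂P, ∀ᶠ x : ℕ in atTop, ∀ y : ℕ, (x : ℝ) * (Real.log x) ^ K ≤ y →
          0 < count θ (fun p => X p ω) oddPrimes x y) ∧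
        ∀ S : Set ℕ, S ⊆ oddPrimes →
          (¬ Summable (S.indicator (prob θ)) → ∀ᵐ ω ∂P,
            Tendsto (fun x : ℕ => (count θ (fun p => X p ω) S 0 x : ℝ) / expected θ S 0 x) atTop (𝓝 1)) ∧
          (Summable (S.indicator (prob θ)) → ∀ᵐ ω ∂P,
            {n : ℕ | n ∈ S ∧ NoFactor (Real.exp (θ * n)) (fun p => X p ω) n}.Finite) ∧
          ∃ C : ℝ, 0 < C ∧ ∀ᵐ ω ∂P, ∀ᶠ x : ℕ in atTop, ∀ y : ℕ, x ≤ y →
            |(count θ (fun p => X p ω) S x y : ℝ) - expected θ S x y| ≤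
              C * (√(expected θ S x y * Real.log (Real.log y)) + Real.log (Real.log y))) ∧
      (∀ᵐ ω ∂P, ∀ θ : ℝ, 0 < θ →
        Tendsto (fun x : ℕ => (count θ (fun p => X p ω) oddPrimes 0 x : ℝ) / expected 1 oddPrimes 0 x) atTop
          (𝓝 (1 / θ))) ∧
      ∀ᵐ ω ∂P, ∀ b : ℕ, 2 ≤ b →
        Tendsto (fun x : ℕ => (#((Ioc 0 x).filter fun n => n ∈ oddPrimes ∧
          NoFactor (√(((b ^ n + 1) / (b + 1) : ℕ) : ℝ)) (fun p => X p ω) n) : ℝ) / expected 1 oddPrimes 0 x) atTop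
          (𝓝 (2 / Real.log b))) ∧
    -- the expected number
    (∀ θ : ℝ, 0 < θ →
      (∃ c C : ℝ, 0 < c ∧ 0 < C ∧ ∃ x₀ : ℕ, 1 ≤ x₀ ∧ ∀ x y : ℕ, x₀ ≤ x → x ≤ y →
        c * Real.log ((y : ℝ) / x) - C ≤ expected θ oddPrimes x y ∧
          expected θ oddPrimes x y ≤ C * Real.log ((y : ℝ) / x) + C) ∧
      Tendsto (fun x : ℕ => expected θ oddPrimes 0 x / expected 1 oddPrimes 0 x) atTop (𝓝 (1 / θ)) ∧
      ∀ ε : ℝ, 0 < ε → ∃ C : ℝ, 0 < C ∧ ∀ n ∈ oddPrimes, prob θ n ≤ C * (n : ℝ) ^ (ε - 1)) ∧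
    -- the integers
    (∀ θ : ℝ, 0 < θ → ∃ C : ℝ, 0 < C ∧ ∀ S : Set ℕ, S ⊆ oddPrimes → ∀ x : ℕ, 1 ≤ x → 1 ≤ expected θ S 0 x →
      ∀ ε : ℝ, 0 < ε → ∀ B : ℕ, Real.exp (C * (x : ℝ) ^ 2) ≤ B →
        (#((range B).filter fun b => ε * expected θ S 0 x ≤ |(#((Ioc 0 x).filter fun n => n ∈ S ∧
          ∀ p : ℕ, p.Prime → (p : ℝ) ≤ Real.exp (θ * n) → ¬ p ∣ (b ^ n + 1) / (b + 1)) : ℝ) - expected θ S 0 x|) : ℝ) ≤
          C * B / (ε ^ 2 * expected θ S 0 x)) ∧
    -- the link with the question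
    (∀ b n : ℕ, 2 ≤ b → n.Prime → 5 ≤ n →
      (((b ^ n + 1) / (b + 1)).Prime ↔ NoFactor (Real.exp (Real.log b / 2 * n)) (fun _ => b) n)) ∧
    -- random units in the place of `-b`
    (∃ (Ω : Type) (_ : MeasurableSpace Ω) (P : Measure Ω) (g : ℕ → Ω → ℕ), Units P g) ∧
    (∀ {Ω : Type} [MeasurableSpace Ω] (P : Measure Ω) (g : ℕ → Ω → ℕ), Units P g → ∀ᵐ ω ∂P, ∀ b : ℕ, 2 ≤ b →
      Tendsto (fun x : ℕ => (#((Ioc 0 x).filter fun n => n ∈ oddPrimes ∧ Good b (fun l => g l ω) n) : ℝ) /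
        expected 1 oddPrimes 0 x) atTop (𝓝 (2 / Real.log b))) ∧
    ∀ (b : ℕ) (g : ℕ → ℕ), 2 ≤ b → (∀ l, l.Prime → ((g l : ℕ) : ZMod l) = -(b : ZMod l)) →
      ∀ n ∈ oddPrimes, ¬ n ∣ b + 1 → (Good b g n ↔ ((b ^ n + 1) / (b + 1)).Prime) := by
  have hlink : ∀ b n : ℕ, Odd n → ∀ z : ℝ, NoFactor z (fun _ => b) n ↔
      ∀ p : ℕ, p.Prime → (p : ℝ) ≤ z → ¬ p ∣ (b ^ n + 1) / (b + 1) := by
    intro b n hn z
    unfold NoFactor
    refine forall₃_congr fun p _ _ => ?_
    exact not_congr (L5helper86.RB.qs_iff hn)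
  have hodd : ∀ n ∈ oddPrimes, Odd n := fun n hn => hn.1.odd_of_ne_two hn.2
  have hexp : ∀ x : ℕ, expected 1 oddPrimes 0 x = L5helper86.RB.EE 1 L5helper86.RB.OP x := fun x => by
    rw [expected_eq (fun _ h => h), L5helper86.RB.EW_zero 1 (S := oddPrimes) (fun n hn => hn)]
    rfl
  refine ⟨?_, ?_, ?_, ?_, ?_, ?_, ?_, ?_⟩
  · have h := L5helper86.RB.exists_sys
    exact ⟨_, _, _, _, ⟨h.prob, h.meas, h.ind, h.unif⟩⟩
  · intro Ω _ P X h
    have hS : L5helper86.UL.Sys P X := ⟨h.prob, h.meas, h.ind, h.unif⟩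
    refine ⟨fun θ hθ => ⟨fun n hn => ?_, ?_, fun S hSS => ⟨fun hd => ?_, fun hs => ?_, ?_⟩⟩, ?_, ?_⟩
    · rw [prob_eq hn.1 hn.2]
      exact L5helper86.RB.Sv_prob hS _ _
    · exact L5helper86.RB.gaps hS hθ
    · rw [indicator_eq hSS] at hd
      filter_upwards [L5helper86.RB.law1 hS hθ.le (fun n hn => hSS hn) hd] with ω hω
      refine hω.congr fun x => ?_
      rw [expected_eq hSS, count_eq, L5helper86.RB.wn_zero θ _ (fun n hn => hSS hn),
        L5helper86.RB.EW_zero θ (fun n hn => hSS hn)]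
    · rw [indicator_eq hSS] at hs
      exact L5helper86.RB.law2 hS hs
    · obtain ⟨C, hC, h1⟩ := L5helper86.RB.win_law hS hθ (S := S) (fun n hn => hSS hn)
      refine ⟨C, hC, ?_⟩
      filter_upwards [h1] with ω hω
      filter_upwards [hω] with x hx y hy
      rw [expected_eq hSS, count_eq]
      exact hx y hy
    · filter_upwards [L5helper86.RB.all_theta_lim L5helper86.RB.hratio hS] with ω hω θ hθ
      refine (hω θ hθ).congr fun x => ?_
      rw [expected_eq (fun _ h => h), L5helper86.RB.EW_zero 1 (S := oddPrimes) (fun n hn => hn), count_eq,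
        L5helper86.RB.wn_zero θ _ (S := oddPrimes) (fun n hn => hn)]
      rfl
    · filter_upwards [L5helper86.RB.all_theta_lim L5helper86.RB.hratio hS] with ω hω b hb
      refine (L5helper86.RB.sq_lim _ hω b hb).congr fun x => ?_
      rw [hexp]
      congr 2
      unfold L5helper86.RB.cq
      congr 1
      ext n
      rw [mem_filter, mem_filter, mem_range, mem_Ioc]
      constructor
      · rintro ⟨h1, h2, h3⟩
        exact ⟨⟨h2.1.pos, by omega⟩, h2, h3⟩
      · rintro ⟨h1, h2, h3⟩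
        exact ⟨by omega, h2, h3⟩
  · intro θ hθ
    refine ⟨?_, ?_, ?_⟩
    · obtain ⟨c, C, hc, hC, x0, hx0, h⟩ := L5helper86.RB.EW_bounds hθ
      refine ⟨c, C, hc, hC, x0, hx0, fun x y hx hy => ?_⟩
      rw [expected_eq (fun _ h => h)]
      exact h x y hx hy
    · refine (L5helper86.RB.EE_ratio_one L5helper86.RB.hratio hθ).congr fun x => ?_
      rw [expected_eq (fun _ h => h), expected_eq (fun _ h => h), L5helper86.RB.EW_zero 1 (S := oddPrimes) (fun n hn => hn),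
        L5helper86.RB.EW_zero θ (S := oddPrimes) (fun n hn => hn)]
      rfl
    · intro ε hε
      obtain ⟨C, hC, h⟩ := L5helper86.RB.Pn_upper θ ε hθ hε
      refine ⟨C, hC, fun n hn => ?_⟩
      rw [prob_eq hn.1 hn.2]
      exact h n hn.1 hn.2
  · intro θ hθ
    obtain ⟨C, hC, h⟩ := L5helper86.RB.integers2 hθ
    refine ⟨C, hC, fun S hS x hx hE ε hε B hB => ?_⟩
    rw [expected_eq hS, L5helper86.RB.EW_zero θ (fun n hn => hS hn)] at hE ⊢
    refine le_trans (le_of_eq ?_) (h S (fun n hn => hS hn) x hx hE ε hε B hB)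
    congr 2
    refine filter_congr fun b _ => ?_
    have e : #((Ioc 0 x).filter fun n => n ∈ S ∧
          ∀ p : ℕ, p.Prime → (p : ℝ) ≤ Real.exp (θ * n) → ¬ p ∣ (b ^ n + 1) / (b + 1)) =
        L5helper86.RB.cnt θ (fun _ => b) S x := by
      rw [← L5helper86.RB.wn_zero θ _ (fun n hn => hS hn), ← count_eq]
      unfold count
      congr 1
      refine filter_congr fun n _ => ?_
      refine and_congr_right fun hn => ?_
      exact (hlink b n (hodd n (hS hn)) _).symm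
    rw [e]
  · intro b n hb hn hn5
    rw [hlink b n (hn.odd_of_ne_two (by omega)) _]
    exact L5helper86.RB.prime_link hb hn hn5
  · obtain ⟨Ω, m, P, hP, g, hg⟩ := L5helper86.RB.exists_units
    exact ⟨Ω, m, P, g, hP, hg.meas, hg.indep, hg.unif⟩
  · intro Ω _ P g hg
    have := hg.prob
    filter_upwards [L5helper86.RB.units_lim P hg.prob g ⟨hg.meas, hg.indep, hg.unif⟩] with ω hω b hb
    refine (hω b hb).congr fun x => ?_
    rw [hexp]
    congr 2
  · intro b g hb hg n hn hnb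
    exact L5helper86.RB.units_truth b hb g hg n hn.1 hn.2 hnb

end Pool.Agent.Results.MP_ce8d0c_nt.AlmostEveryBase
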