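import Mathlib
import Pool.Agent.W66.LU
import Pool.Agent.H473R4.Count

set_option autoImplicit false

/-!
# Generalized Wagstaff numbers in every base and random digit sequences

For a base `b ≥ 2`, a sequence `d` of digits in base `b` (least significant first) and a prime `p`
let `W b d p` be the `p`-rough part (the product, with multiplicity, of the prime factors larger
than `p`) of the integer `∑ i < p, d i * b ^ i` formed by the `p` lowest digits.  For the sequence
`wag b = (1, b - 1, 0, b - 1, 0, b - 1, …)`, the expansion of the `b`-adic number `1 / (b + 1)`,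
and every odd prime `p` that does not divide `b + 1` this is the number `(b ^ p + 1) / (b + 1)` of
the question itself.  We prove, in every base `b ≥ 2`, that for almost every sequence of digits
whose lowest digit is prime to `b` the number of primes `p ≤ n` with `W b d p` prime is asymptotic
to `(e ^ γ / log b) log n`.
-/

namespace Pool.Agent.Results.MP_ce8d0c_nt.DigitSequences

open Filter Topology MeasureTheory

/-- The product, with multiplicity, of the prime factors of `m` that are larger than `p`. -/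
def roughPart (p m : ℕ) : ℕ := (m.primeFactorsList.filter (fun r => p < r)).prod

/-- The `p`-rough part of the integer formed by the `p` lowest digits. -/
def W (b : ℕ) (d : ℕ → Fin b) (p : ℕ) : ℕ :=
  roughPart p (∑ i ∈ Finset.range p, (d i : ℕ) * b ^ i)

/-- The number of primes `p ≤ n` for which `W b d p` is prime. -/
def N (b : ℕ) (d : ℕ → Fin b) (n : ℕ) : ℕ :=
  ((Finset.range (n + 1)).filter (fun p => p.Prime ∧ (W b d p).Prime)).card

/-- The digits `1, b - 1, 0, b - 1, 0, b - 1, …` -/
def wag (b : ℕ) (hb : 2 ≤ b) (i : ℕ) : Fin b :=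
  if i = 0 then ⟨1, by omega⟩ else if Odd i then ⟨b - 1, by omega⟩ else ⟨0, by omega⟩

/-- the integers formed by the digits of `wag` -/
lemma wag_sum (b : ℕ) (hb : 2 ≤ b) (k : ℕ) :
    (∑ i ∈ Finset.range (2 * k + 1), (wag b hb i : ℕ) * b ^ i) * (b + 1) = b ^ (2 * k + 1) + 1 := by
  induction k with
  | zero => simp [wag]
  | succ k ih =>
    rw [show 2 * (k + 1) + 1 = (2 * k + 1) + 1 + 1 by ring, Finset.sum_range_succ,
      Finset.sum_range_succ]
    have h1 : (wag b hb (2 * k + 1) : ℕ) = b - 1 := by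
      have : Odd (2 * k + 1) := ⟨k, rfl⟩
      simp [wag, this]
    have h2 : (wag b hb (2 * k + 1 + 1) : ℕ) = 0 := by
      have : ¬ Odd (2 * k + 1 + 1) := by
        rw [Nat.not_odd_iff_even]
        exact ⟨k + 1, by ring⟩
      simp [wag, this]
    rw [h1, h2]
    obtain ⟨c, rfl⟩ : ∃ c, b = c + 1 := ⟨b - 1, by omega⟩
    rw [Nat.add_sub_cancel]
    rw [zero_mul, add_zero, add_mul, ih]
    ring

/-- the special values -/
lemma special {b : ℕ} (hb : 2 ≤ b) {p : ℕ} (hp : p.Prime) (hp2 : p ≠ 2) (hpd : ¬ p ∣ b + 1) :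
    W b (wag b hb) p * (b + 1) = b ^ p + 1 := by
  obtain ⟨k, hk⟩ := hp.odd_of_ne_two hp2
  have h1 := wag_sum b hb k
  rw [← hk] at h1
  have h2 := Pool.Agent.W66L.rough_wagstaff hb hp hp2 hpd h1
  unfold W
  have h3 : roughPart p (∑ i ∈ Finset.range p, (wag b hb i : ℕ) * b ^ i) =
      ∑ i ∈ Finset.range p, (wag b hb i : ℕ) * b ^ i := h2
  rw [h3, h1]

/-- The special values, the equivalence with the question at the digits of `1 / (b + 1)`, and the law
for almost every sequence of digits, in every base. -/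
theorem result :
    (∀ (b : ℕ) (hb : 2 ≤ b) (p : ℕ), p.Prime → p ≠ 2 → ¬ p ∣ b + 1 →
      W b (wag b hb) p * (b + 1) = b ^ p + 1) ∧
    (∀ (b : ℕ) (hb : 2 ≤ b), {n : ℕ | Odd n ∧ ((b ^ n + 1) / (b + 1)).Prime}.Infinite ↔
      Tendsto (N b (wag b hb)) atTop atTop) ∧
    (∀ b : ℕ, 2 ≤ b →
      ∀ᵐ d : ℕ → Fin b ∂(Measure.infinitePi
        (fun _ : ℕ => ProbabilityTheory.uniformOn (Set.univ : Set (Fin b)))),
      (d 0 : ℕ).Coprime b → Tendsto (fun n : ℕ => (N b d n : ℝ) / Real.log n) atTop
        (𝓝 (Real.exp Real.eulerMascheroniConstant / Real.log b))) := by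
  refine ⟨fun b hb p hp hp2 hpd => special hb hp hp2 hpd, fun b hb => ?_, fun b hb => ?_⟩
  · have h1 : {n : ℕ | Odd n ∧ ((b ^ n + 1) / (b + 1)).Prime}.Infinite ↔
        {p : ℕ | p.Prime ∧ (p ≠ 2 ∧ ((b ^ p + 1) / (b + 1)).Prime)}.Infinite := by
      have e : {n : ℕ | Odd n ∧ ((b ^ n + 1) / (b + 1)).Prime} =
          {p : ℕ | p.Prime ∧ (p ≠ 2 ∧ ((b ^ p + 1) / (b + 1)).Prime)} := by
        ext n
        constructor
        · rintro ⟨h1, h2⟩
          refine ⟨Pool.Agent.H473R4.wagstaff_prime_index hb h1 h2, ?_, h2⟩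
          rintro rfl
          exact absurd h1 (by decide)
        · rintro ⟨h1, h2, h3⟩
          exact ⟨h1.odd_of_ne_two h2, h3⟩
      rw [e]
    rw [h1]
    refine Pool.Agent.H473R4.tendsto_iff (W b (wag b hb)) _ (b + 2) fun p hp hpb => ?_
    have hp2 : p ≠ 2 := by omega
    have hpd : ¬ p ∣ b + 1 := fun h => by
      have := Nat.le_of_dvd (by omega) h
      omega
    have h2 : (b ^ p + 1) / (b + 1) = W b (wag b hb) p := by
      rw [← special hb hp hp2 hpd, Nat.mul_div_cancel _ (by omega)]
    rw [h2]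
    exact ⟨fun h => ⟨hp2, h⟩, fun h => h.2⟩
  · have : NeZero b := ⟨by omega⟩
    have h := Pool.Agent.W66L.law_all hb (Pool.Agent.W66L.full_digits b)
    unfold Pool.Agent.W66L.digitMeasure at h
    filter_upwards [h] with d hd h0
    have hc : (Pool.Agent.W66L.dsum b 1 d).Coprime b := by
      unfold Pool.Agent.W66L.dsum
      simpa using h0
    refine (hd hc).congr fun n => ?_
    have h4 : Pool.Agent.W66L.cntR (fun p => Pool.Agent.W66L.dsum b p d) n = N b d n := by
      unfold Pool.Agent.W66L.cntR N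
      congr 1
      ext p
      simp only [Finset.mem_filter, Finset.mem_Icc, Finset.mem_range]
      constructor
      · rintro ⟨⟨h5, h6⟩, h7, h8⟩
        exact ⟨by omega, h7, h8⟩
      · rintro ⟨h6, h7, h8⟩
        exact ⟨⟨h7.pos, by omega⟩, h7, h8⟩
    rw [h4]

end Pool.Agent.Results.MP_ce8d0c_nt.DigitSequences
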