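import Pool.Agent.L5helper71.AffLaw

/-!
# MP_ce8d0c_nt: the numbers `(b^n + 1)/(b + 1)` and almost every system of residue classes

A number `N ≥ 2` is prime iff it avoids the residue class `0` modulo all primes `p` with `p² ≤ N`. We prove
the law which is expected for the primes among the `Q(b, n) = (b^n + 1)/(b + 1)`, in all bases and all
residue classes of exponents at once, for almost every choice of one residue class `a_p` modulo each prime.
-/

set_option autoImplicit false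

namespace Pool.Agent.Results.MP_ce8d0c_nt.RandomResidues

open Finset MeasureTheory ProbabilityTheory Filter Topology
open Pool.Agent.L5helper2.RS Pool.Agent.L5helper71.AO

/-- the generalised Wagstaff numbers -/
def Q (b n : ℕ) : ℕ := (b ^ n + 1) / (b + 1)

/-- the orbit `x₀, β x₀ + c, …` -/
def orbit (β : ℕ) (c x₀ : ℤ) : ℕ → ℤ
  | 0 => x₀
  | m + 1 => β * orbit β c x₀ m + c

/-- `N` avoids the class `a_p` modulo all primes `p` with `p² ≤ N` -/
def Survives (a : ℕ → ℕ) (N : ℤ) : Prop := ∀ p : ℕ, p.Prime → (p : ℤ) ^ 2 ≤ N → ¬ N ≡ a p [ZMOD p]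

/-- `c(b, M) = -(b^M - 1)/(b + 1)` -/
def shift (b M : ℕ) : ℤ := -(((b ^ M - 1) / (b + 1) : ℕ) : ℤ)

lemma Q_mul {b n : ℕ} (hn : Odd n) : (b + 1) * Q b n = b ^ n + 1 := by
  unfold Q
  apply Nat.mul_div_cancel'
  have := hn.nat_add_dvd_pow_add_pow b 1
  simpa using this

lemma shift_mul {b M : ℕ} (hb : 2 ≤ b) (hM : Even M) : ((b : ℤ) + 1) * shift b M = 1 - (b : ℤ) ^ M := by
  have h1 : (b + 1) ∣ b ^ M - 1 := by
    obtain ⟨k, hk⟩ := hM
    have h2 : b ^ 2 - 1 ∣ (b ^ 2) ^ k - 1 ^ k := Nat.sub_dvd_pow_sub_pow _ _ _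
    have h3 : b ^ 2 - 1 = (b + 1) * (b - 1) := by
      have := Nat.sq_sub_sq b 1
      simpa using this
    rw [one_pow, ← pow_mul, show 2 * k = M by omega, h3] at h2
    exact (Dvd.intro _ rfl).trans h2
  have h2 : (b + 1) * ((b ^ M - 1) / (b + 1)) = b ^ M - 1 := Nat.mul_div_cancel' h1
  have h3 : 1 ≤ b ^ M := Nat.one_le_pow _ _ (by omega)
  have h4 : ((b : ℤ) + 1) * (((b ^ M - 1) / (b + 1) : ℕ) : ℤ) = (b : ℤ) ^ M - 1 := by
    have h5 : (((b + 1) * ((b ^ M - 1) / (b + 1)) : ℕ) : ℤ) = ((b ^ M - 1 : ℕ) : ℤ) := by rw [h2]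
    rw [Nat.cast_mul, Nat.cast_sub h3] at h5
    push_cast at h5 ⊢
    exact h5
  unfold shift
  linarith

lemma Q_orbit {b M r : ℕ} (hb : 2 ≤ b) (hM : Even M) (hr : Odd r) (m : ℕ) :
    orbit (b ^ M) (shift b M) (Q b r) m = Q b (r + M * m) := by
  induction m with
  | zero => rfl
  | succ m ih =>
    have hb0 : (0 : ℤ) < (b : ℤ) + 1 := by positivity
    have ho : ∀ k, Odd (r + M * k) := fun k => hr.add_even (hM.mul_right k)
    have h1 : ((b : ℤ) + 1) * (Q b (r + M * m) : ℤ) = (b : ℤ) ^ (r + M * m) + 1 := by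
      exact_mod_cast Q_mul (b := b) (ho m)
    have h2 : ((b : ℤ) + 1) * (Q b (r + M * (m + 1)) : ℤ) = (b : ℤ) ^ (r + M * (m + 1)) + 1 := by
      exact_mod_cast Q_mul (b := b) (ho (m + 1))
    have h3 := shift_mul hb hM
    have e : (b : ℤ) ^ (r + M * (m + 1)) = (b : ℤ) ^ M * (b : ℤ) ^ (r + M * m) := by
      rw [← pow_add]
      congr 1
      ring
    apply mul_left_cancel₀ hb0.ne'
    show ((b : ℤ) + 1) * (((b ^ M : ℕ) : ℤ) * orbit (b ^ M) (shift b M) (Q b r) m + shift b M) = _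
    rw [ih, h2, e]
    push_cast
    linear_combination (b : ℤ) ^ M * h1 + h3

lemma Q_pos_drift {b M r : ℕ} (hb : 2 ≤ b) (hM : Even M) (hM0 : 0 < M) (hr : Odd r) :
    0 < (((b ^ M : ℕ) : ℤ) - 1) * (Q b r : ℤ) + shift b M := by
  have hb0 : (0 : ℤ) < (b : ℤ) + 1 := by positivity
  have h1 : ((b : ℤ) + 1) * (Q b r : ℤ) = (b : ℤ) ^ r + 1 := by
    exact_mod_cast Q_mul (b := b) hr
  have h3 := shift_mul hb hM
  have h4 : (1 : ℤ) < (b : ℤ) ^ M := one_lt_pow₀ (by exact_mod_cast (by omega : 1 < b)) hM0.ne'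
  have h5 : (0 : ℤ) < (b : ℤ) ^ r := by positivity
  have h6 : 0 < ((b : ℤ) + 1) * ((((b ^ M : ℕ) : ℤ) - 1) * (Q b r : ℤ) + shift b M) := by
    have e : ((b : ℤ) + 1) * ((((b ^ M : ℕ) : ℤ) - 1) * (Q b r : ℤ) + shift b M) = ((b : ℤ) ^ M - 1) * (b : ℤ) ^ r := by
      push_cast
      linear_combination ((b : ℤ) ^ M - 1) * h1 + h3
    rw [e]
    exact mul_pos (by linarith) h5
  exact pos_of_mul_pos_right h6 hb0.le

lemma prime_iff {N : ℕ} (hN : 2 ≤ N) : N.Prime ↔ Survives (fun _ => 0) N := by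
  unfold Survives
  constructor
  · intro h p hp hp2 h1
    have h2 : (p : ℤ) ∣ N := by simpa using Int.modEq_zero_iff_dvd.1 (by simpa using h1)
    have h3 : p ∣ N := by exact_mod_cast h2
    rcases (Nat.dvd_prime h).1 h3 with h4 | h4
    · exact hp.one_lt.ne' h4
    · rw [h4] at hp2
      have h5 : (N : ℤ) ^ 2 ≤ N := hp2
      have h6 : (2 : ℤ) ≤ N := by exact_mod_cast hN
      nlinarith
  · intro h
    by_contra hc
    have h1 := Nat.minFac_sq_le_self (by omega : 0 < N) hc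
    refine h N.minFac (Nat.minFac_prime (by omega)) (by exact_mod_cast h1) ?_
    have h2 : (N.minFac : ℤ) ∣ N := by exact_mod_cast N.minFac_dvd
    simpa using Int.modEq_zero_iff_dvd.2 h2

lemma Q_two_le {b n : ℕ} (hb : 2 ≤ b) (hn : Odd n) (hn3 : 3 ≤ n) : 2 ≤ Q b n := by
  have h1 := Q_mul (b := b) hn
  have h2 : b ^ 3 ≤ b ^ n := Nat.pow_le_pow_right (by omega) hn3
  have h3 : 4 * b ≤ b ^ 3 := by
    have : 2 * 2 ≤ b * b := Nat.mul_le_mul hb hb
    calc 4 * b ≤ (b * b) * b := Nat.mul_le_mul_right b this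
      _ = b ^ 3 := by ring
  by_contra hc
  have h4 : Q b n ≤ 1 := by omega
  have h5 : (b + 1) * Q b n ≤ (b + 1) * 1 := Nat.mul_le_mul_left _ h4
  omega

lemma orbit_diff {β : ℕ} {c x₀ : ℤ} (m : ℕ) :
    orbit β c x₀ (m + 1) - orbit β c x₀ m = (((β : ℤ) - 1) * x₀ + c) * (β : ℤ) ^ m := by
  induction m with
  | zero =>
    simp only [orbit, pow_zero, mul_one]
    ring
  | succ m ih =>
    have e : orbit β c x₀ (m + 1 + 1) - orbit β c x₀ (m + 1) =
        β * (orbit β c x₀ (m + 1) - orbit β c x₀ m) := by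
      show (β * orbit β c x₀ (m + 1) + c) - orbit β c x₀ (m + 1) = _
      have : orbit β c x₀ (m + 1) = β * orbit β c x₀ m + c := rfl
      linear_combination -this
    rw [e, ih, pow_succ]
    ring

/-- a substitution in the law -/
lemma subst_tendsto {A F : ℕ → ℝ} {L K : ℝ} {r M : ℕ} (hM : 0 < M)
    (hA : Tendsto (fun n : ℕ => A n / Real.log n) atTop (𝓝 L))
    (hF : ∀ᶠ y : ℕ in atTop, |F y - A ((y - r) / M)| ≤ K) :
    Tendsto (fun y : ℕ => F y / Real.log y) atTop (𝓝 L) := by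
  have hlog : Tendsto (fun y : ℕ => Real.log (y : ℝ)) atTop atTop :=
    Real.tendsto_log_atTop.comp tendsto_natCast_atTop_atTop
  have hk0 : ∀ᶠ y : ℕ in atTop, y ≤ 2 * M * ((y - r) / M) := by
    filter_upwards [eventually_ge_atTop (2 * (r + M))] with y hy
    have h1 := Nat.div_add_mod (y - r) M
    have h2 := Nat.mod_lt (y - r) hM
    have h3 : 2 * M * ((y - r) / M) = 2 * (M * ((y - r) / M)) := by ring
    omega
  have hk : Tendsto (fun y : ℕ => (y - r) / M) atTop atTop := by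
    refine tendsto_atTop.2 fun B => ?_
    filter_upwards [hk0, eventually_ge_atTop (2 * M * B)] with y h1 h2
    have h3 : 2 * M * B ≤ 2 * M * ((y - r) / M) := h2.trans h1
    exact Nat.le_of_mul_le_mul_left h3 (by omega)
  have h1 := hA.comp hk
  have hrat : Tendsto (fun y : ℕ => Real.log (((y - r) / M : ℕ) : ℝ) / Real.log y) atTop (𝓝 1) := by
    have h2 : Tendsto (fun y : ℕ => 1 - Real.log (2 * M : ℝ) / Real.log y) atTop (𝓝 1) := by
      have := (tendsto_const_nhds (x := Real.log (2 * M : ℝ))).div_atTop hlog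
      simpa using this.const_sub 1
    refine tendsto_of_tendsto_of_tendsto_of_le_of_le' h2 tendsto_const_nhds ?_ ?_
    · filter_upwards [hlog.eventually_gt_atTop 0, hk0, hk.eventually_ge_atTop 1] with y hy h3 h4
      have hk1 : (0 : ℝ) < (((y - r) / M : ℕ) : ℝ) := by exact_mod_cast h4
      have hM1 : (0 : ℝ) < M := by exact_mod_cast hM
      have hy0 : (0 : ℝ) < y := by
        rcases Nat.eq_zero_or_pos y with h0 | h0
        · rw [h0] at hy
          simp at hy
        · exact_mod_cast h0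
      rw [sub_le_iff_le_add, ← add_div, le_div_iff₀ hy, one_mul, ← Real.log_mul hk1.ne' (by positivity)]
      refine Real.log_le_log hy0 ?_
      have h5 : (y : ℝ) ≤ 2 * M * (((y - r) / M : ℕ) : ℝ) := by exact_mod_cast h3
      linarith
    · filter_upwards [hlog.eventually_gt_atTop 0, hk.eventually_ge_atTop 1] with y hy h4
      have hk1 : (0 : ℝ) < (((y - r) / M : ℕ) : ℝ) := by exact_mod_cast h4
      rw [div_le_one hy]
      refine Real.log_le_log hk1 ?_
      exact_mod_cast (Nat.div_le_self _ _).trans (Nat.sub_le _ _)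
  have herr : Tendsto (fun y : ℕ => (F y - A ((y - r) / M)) / Real.log y) atTop (𝓝 0) := by
    refine squeeze_zero_norm' ?_ ((tendsto_const_nhds (x := K)).div_atTop hlog)
    filter_upwards [hlog.eventually_gt_atTop 0, hF] with y hy h2
    rw [norm_div, Real.norm_eq_abs, Real.norm_of_nonneg hy.le]
    exact div_le_div_of_nonneg_right h2 hy.le
  have h2 := herr.add (h1.mul hrat)
  rw [zero_add, mul_one] at h2
  refine h2.congr' ?_
  filter_upwards [hlog.eventually_gt_atTop 0, hk.eventually_ge_atTop 2] with y hy h3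
  have hl : 0 < Real.log (((y - r) / M : ℕ) : ℝ) :=
    Real.log_pos (by exact_mod_cast (by omega : 1 < (y - r) / M))
  simp only [Function.comp]
  field_simp
  ring

open Classical in
/-- the exponents `n ≡ r` modulo `M` -/
lemma count_class (R : ℕ → Prop) {r M : ℕ} (hM : 0 < M) (hr : 0 < r) (hrM : r < M) {y : ℕ} (hy : r ≤ y) :
    |(#((Icc 1 y).filter (fun n => n ≡ r [MOD M] ∧ R n)) : ℝ) -
      #((Icc 1 ((y - r) / M)).filter (fun m => R (r + M * m)))| ≤ 1 := by
  have h1 : #((Icc 1 y).filter (fun n => n ≡ r [MOD M] ∧ R n)) ≤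
      #((Icc 1 ((y - r) / M)).filter (fun m => R (r + M * m))) + 1 := by
    calc #((Icc 1 y).filter (fun n => n ≡ r [MOD M] ∧ R n)) ≤
        #(((Icc 1 ((y - r) / M)).filter (fun m => R (r + M * m))).image (fun m => r + M * m) ∪ {r}) := by
          refine card_le_card fun n hn => ?_
          rw [mem_filter, mem_Icc] at hn
          rw [mem_union, mem_image, mem_singleton]
          by_cases hn1 : n = r
          · exact Or.inr hn1
          · left
            have hmod : n % M = r := by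
              have := hn.2.1
              unfold Nat.ModEq at this
              rwa [Nat.mod_eq_of_lt hrM] at this
            have h2 := Nat.div_add_mod n M
            have h3 : n = r + M * (n / M) := by omega
            refine ⟨n / M, ?_, h3.symm⟩
            rw [mem_filter, mem_Icc, ← h3]
            refine ⟨⟨?_, ?_⟩, hn.2.2⟩
            · by_contra hc
              have h4 : n / M = 0 := Nat.lt_one_iff.1 (not_le.1 hc)
              rw [h4, Nat.mul_zero] at h3
              exact hn1 h3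
            · rw [Nat.le_div_iff_mul_le hM, mul_comm]
              omega
      _ ≤ #(((Icc 1 ((y - r) / M)).filter (fun m => R (r + M * m))).image (fun m => r + M * m)) + 1 :=
          (card_union_le _ _).trans (by rw [card_singleton])
      _ ≤ _ := Nat.add_le_add_right card_image_le 1
  have h2 : #((Icc 1 ((y - r) / M)).filter (fun m => R (r + M * m))) ≤
      #((Icc 1 y).filter (fun n => n ≡ r [MOD M] ∧ R n)) := by
    refine card_le_card_of_injOn (fun m => r + M * m) ?_ ?_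
    · intro m hm
      rw [mem_coe, mem_filter, mem_Icc] at hm
      rw [mem_coe, mem_filter, mem_Icc]
      have h3 : m * M ≤ y - r := (Nat.le_div_iff_mul_le hM).1 hm.1.2
      have h4 : M * m = m * M := mul_comm _ _
      have h0 : 1 ≤ r + M * m ∧ r + M * m ≤ y := ⟨by omega, by omega⟩
      refine ⟨h0, ?_, hm.2⟩
      show r + M * m ≡ r [MOD M]
      unfold Nat.ModEq
      rw [Nat.add_mul_mod_self_left]
    · intro a _ b _ hab
      have h3 : r + M * a = r + M * b := hab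
      have h4 : M * a = M * b := by omega
      exact Nat.eq_of_mul_eq_mul_left hM h4
  have h1' : (#((Icc 1 y).filter (fun n => n ≡ r [MOD M] ∧ R n)) : ℝ) ≤
      #((Icc 1 ((y - r) / M)).filter (fun m => R (r + M * m))) + 1 := by exact_mod_cast h1
  have h2' : (#((Icc 1 ((y - r) / M)).filter (fun m => R (r + M * m))) : ℝ) ≤
      #((Icc 1 y).filter (fun n => n ≡ r [MOD M] ∧ R n)) := by exact_mod_cast h2
  rw [abs_le]
  constructor <;> linarith

open Classical in
theorem result (Ω : Type) [MeasurableSpace Ω] (P : Measure Ω) [IsProbabilityMeasure P] (a : ℕ → Ω → ℕ)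
    (hmeas : ∀ p, Measurable (a p))
    (hind : iIndepFun (fun p : Nat.Primes => a p) P)
    (hunif : ∀ p r : ℕ, p.Prime → r < p → P.real {ω | a p ω = r} = 1 / p) :
    -- the numbers of the problem
    (∀ b n : ℕ, 2 ≤ b → Odd n → 3 ≤ n → ((Q b n).Prime ↔ Survives (fun _ => 0) (Q b n))) ∧
    (∀ b M r m : ℕ, 2 ≤ b → Even M → Odd r →
      orbit (b ^ M) (shift b M) (Q b r) m = Q b (r + M * m)) ∧
    -- the random systems of residue classes
    ∃ κ : ℕ → ℤ → ℤ → Ω → ℝ,
      (∀ (β : ℕ) (c x₀ : ℤ), 2 ≤ β → 0 < ((β : ℤ) - 1) * x₀ + c →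
        Integrable (κ β c x₀) P ∧ ∫ ω, κ β c x₀ ω ∂P = 1) ∧
      ∀ᵐ ω ∂P,
        (∀ (β : ℕ) (c x₀ : ℤ), 2 ≤ β → 0 < ((β : ℤ) - 1) * x₀ + c →
          0 ≤ κ β c x₀ ω ∧
          (∃ δ : ℕ → ℝ,
            (∀ w : ℕ, Tendsto (fun n : ℕ =>
              (#{m ∈ Icc 1 n | ∀ p ≤ w, p.Prime → ¬ orbit β c x₀ m ≡ a p ω [ZMOD p]} : ℝ) / n) atTop (𝓝 (δ w))) ∧
            Tendsto (fun w : ℕ => δ w / ∏ p ∈ Icc 1 w with p.Prime, (1 - 1 / (p : ℝ))) atTop
              (𝓝 (κ β c x₀ ω))) ∧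
          Tendsto (fun n : ℕ =>
            (#{m ∈ Icc 1 n | Survives (fun p => a p ω) (orbit β c x₀ m)} : ℝ) / Real.log n) atTop
            (𝓝 (2 * Real.exp (-Real.eulerMascheroniConstant) / Real.log β * κ β c x₀ ω))) ∧
        ∀ b M r : ℕ, 2 ≤ b → Even M → Odd r → r < M →
          Tendsto (fun y : ℕ =>
            (#{n ∈ Icc 1 y | n ≡ r [MOD M] ∧ Survives (fun p => a p ω) (Q b n)} : ℝ) / Real.log y) atTop
            (𝓝 (2 * Real.exp (-Real.eulerMascheroniConstant) / (M * Real.log b) *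
              κ (b ^ M) (shift b M) (Q b r) ω)) := by
  refine ⟨fun b n hb hn hn3 => prime_iff (Q_two_le hb hn hn3), fun b M r m hb hM hr => Q_orbit hb hM hr m, ?_⟩
  -- the system of the residues
  obtain ⟨X, hX⟩ : ∃ X : Ix 1 → Ω → ℕ, X = fun j => a (pp j) := ⟨_, rfl⟩
  have hR : RSys P (pp (k := 1)) X := by
    refine ⟨inferInstance, fun j => by rw [hX]; exact hmeas _, ?_, ?_, pp_two⟩
    · have hinj : Function.Injective (fun j : Ix 1 => (⟨pp j, j.1.2⟩ : Nat.Primes)) := by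
        intro i j hij
        have h1 : pp i = pp j := congrArg (fun q : Nat.Primes => (q : ℕ)) hij
        have h4 : i.1 = j.1 := Subtype.ext h1
        exact Prod.ext h4 (Subsingleton.elim _ _)
      have h1 := hind.precomp hinj
      intro s C
      have h2 := h1.measure_inter_preimage_eq_mul s (sets := C) fun i _ => MeasurableSet.of_discrete
      rw [measureReal_def, hX]
      have h3 : P (⋂ j ∈ s, (fun j : Ix 1 => a (pp j)) j ⁻¹' C j) = ∏ j ∈ s, P (a (pp j) ⁻¹' C j) := h2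
      rw [h3, ENNReal.toReal_prod]
      rfl
    · intro j r hr
      rw [hX]
      exact hunif (pp j) r j.1.2 hr
  -- the translation of the conditions
  have hsv : ∀ (x : ℕ → ℤ) (ω : Ω) (m w : ℕ), Sv X x w ω m ↔
      ∀ p ≤ w, p.Prime → ¬ x m ≡ a p ω [ZMOD p] := by
    intro x ω m w
    rw [sv_iff, hX]
    constructor
    · intro h p hp hpp h1
      exact h (⟨p, hpp⟩, 0) hp (Int.modEq_iff_dvd.1 h1.symm)
    · intro h j hj h1
      exact h (pp j) hj j.1.2 (Int.modEq_iff_dvd.2 h1).symm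
  have hsv2 : ∀ (x : ℕ → ℤ) (ω : Ω) (m : ℕ), Sv X x (Nat.sqrt (x m).toNat) ω m ↔
      Survives (fun p => a p ω) (x m) := by
    intro x ω m
    rw [hsv]
    unfold Survives
    have h1 : ∀ p : ℕ, p.Prime → (p ≤ Nat.sqrt (x m).toNat ↔ (p : ℤ) ^ 2 ≤ x m) := by
      intro p hp
      rw [Nat.le_sqrt']
      have hp0 : 0 < p ^ 2 := pow_pos hp.pos 2
      have e : (p : ℤ) ^ 2 = ((p ^ 2 : ℕ) : ℤ) := by push_cast; ring
      rw [e]
      generalize p ^ 2 = k at hp0 ⊢
      omega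
    constructor
    · intro h p hp hp2
      exact h p ((h1 p hp).2 hp2) hp
    · intro h p hp hp2
      exact h p hp2 ((h1 p hp2).1 hp)
  -- one orbit
  have hone : ∀ (β : ℕ) (c x₀ : ℤ), 2 ≤ β → 0 < ((β : ℤ) - 1) * x₀ + c →
      ∃ κ : Ω → ℝ, Integrable κ P ∧ ∫ ω, κ ω ∂P = 1 ∧ ∀ᵐ ω ∂P,
          0 ≤ κ ω ∧
          (∃ δ : ℕ → ℝ,
            (∀ w : ℕ, Tendsto (fun n : ℕ =>
              (#{m ∈ Icc 1 n | ∀ p ≤ w, p.Prime → ¬ orbit β c x₀ m ≡ a p ω [ZMOD p]} : ℝ) / n) atTop (𝓝 (δ w))) ∧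
            Tendsto (fun w : ℕ => δ w / ∏ p ∈ Icc 1 w with p.Prime, (1 - 1 / (p : ℝ))) atTop (𝓝 (κ ω))) ∧
          Tendsto (fun n : ℕ =>
            (#{m ∈ Icc 1 n | Survives (fun p => a p ω) (orbit β c x₀ m)} : ℝ) / Real.log n) atTop
            (𝓝 (2 * Real.exp (-Real.eulerMascheroniConstant) / Real.log β * κ ω)) := by
    intro β c x₀ hβ hD
    obtain ⟨κ, h1, h2, h3⟩ := aff_law hR hβ hD (x := orbit β c x₀) orbit_diff
    refine ⟨κ, h1, h2, ?_⟩
    filter_upwards [h3] with ω hω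
    obtain ⟨h4, ⟨δ, h5, h6⟩, h7⟩ := hω
    refine ⟨h4, ⟨δ, fun w => ?_, ?_⟩, ?_⟩
    · refine (h5 w).congr fun n => ?_
      simp only [hsv]
    · refine h6.congr fun w => ?_
      rw [Vp_eq]
    · refine h7.congr fun n => ?_
      simp only [hsv2]
  choose! κ h1 h2 h3 using hone
  refine ⟨κ, fun β c x₀ hβ hD => ⟨h1 β c x₀ hβ hD, h2 β c x₀ hβ hD⟩, ?_⟩
  have hall : ∀ᵐ ω ∂P, ∀ (β : ℕ) (c x₀ : ℤ), 2 ≤ β → 0 < ((β : ℤ) - 1) * x₀ + c →
          0 ≤ κ β c x₀ ω ∧
          (∃ δ : ℕ → ℝ,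
            (∀ w : ℕ, Tendsto (fun n : ℕ =>
              (#{m ∈ Icc 1 n | ∀ p ≤ w, p.Prime → ¬ orbit β c x₀ m ≡ a p ω [ZMOD p]} : ℝ) / n) atTop (𝓝 (δ w))) ∧
            Tendsto (fun w : ℕ => δ w / ∏ p ∈ Icc 1 w with p.Prime, (1 - 1 / (p : ℝ))) atTop
              (𝓝 (κ β c x₀ ω))) ∧
          Tendsto (fun n : ℕ =>
            (#{m ∈ Icc 1 n | Survives (fun p => a p ω) (orbit β c x₀ m)} : ℝ) / Real.log n) atTop
            (𝓝 (2 * Real.exp (-Real.eulerMascheroniConstant) / Real.log β * κ β c x₀ ω)) := by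
    rw [ae_all_iff]
    intro β
    rw [ae_all_iff]
    intro c
    rw [ae_all_iff]
    intro x₀
    by_cases hβ : 2 ≤ β
    · by_cases hD : 0 < ((β : ℤ) - 1) * x₀ + c
      · filter_upwards [h3 β c x₀ hβ hD] with ω hω
        exact fun _ _ => hω
      · exact Eventually.of_forall fun ω _ h => absurd h hD
    · exact Eventually.of_forall fun ω h => absurd h hβ
  filter_upwards [hall] with ω hω
  refine ⟨hω, fun b M r hb hM hr hrM => ?_⟩
  have hM0 : 0 < M := by omega
  have hr0 : 0 < r := hr.pos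
  have hbM : 2 ≤ b ^ M := by
    calc 2 ≤ b := hb
      _ = b ^ 1 := (pow_one b).symm
      _ ≤ b ^ M := Nat.pow_le_pow_right (by omega) hM0
  have h4 := (hω (b ^ M) (shift b M) (Q b r) hbM (Q_pos_drift hb hM hM0 hr)).2.2
  have h5 : Real.log ((b ^ M : ℕ) : ℝ) = M * Real.log b := by
    rw [Nat.cast_pow, Real.log_pow]
  rw [h5] at h4
  refine subst_tendsto (r := r) (M := M) (K := 1) hM0 h4 ?_
  filter_upwards [eventually_ge_atTop r] with y hy
  have h6 := count_class (fun n => Survives (fun p => a p ω) (Q b n)) hM0 hr0 hrM hy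
  simp only [Q_orbit hb hM hr]
  exact h6

end Pool.Agent.Results.MP_ce8d0c_nt.RandomResidues
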