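import Mathlib
import Pool.Agent.N176.SH.All
import Pool.Agent.N372.SH.OKP
import Pool.Agent.H473R4.Count

set_option autoImplicit false

/-!
# Generalized Wagstaff numbers in every base: windows of any length, sets of exponents

For an integer `b ≥ 2`, a real `β > 0` and a prime `p` let `W b β p` be the `p`-rough part (the
product, with multiplicity, of the prime factors larger than `p`) of `⌈β b ^ p⌉`.  For
`β = 1 / (b + 1)` and every odd prime `p` that does not divide `b + 1` this is the generalized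
Wagstaff number `(b ^ p + 1) / (b + 1)` of the question itself.

The Poisson model behind the conjecture predicts that the exponents `p` with `W b β p` prime form,
on the scale `log p`, a Poisson process of intensity `e ^ γ / log b`.  We prove, for almost every
`β > 0` and for all bases `b ≥ 2` at once, the bounds for all windows `(n, n']` at once, of whatever
length, which hold for such a process, and the upper half of the law of the iterated logarithm for
the whole counting function; and the same for the exponents in an arbitrary set `S` of primes of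
infinite weight `∑ log p / p`.
-/

namespace Pool.Agent.Results.MP_ce8d0c_nt.WindowsEveryBase

open Filter Topology MeasureTheory

/-- The product, with multiplicity, of the prime factors of `m` that are larger than `p`. -/
def roughPart (p m : ℕ) : ℕ := (m.primeFactorsList.filter (fun r => p < r)).prod

/-- The `p`-rough part of `⌈β b ^ p⌉`. -/
noncomputable def W (b : ℕ) (β : ℝ) (p : ℕ) : ℕ := roughPart p ⌈β * (b : ℝ) ^ p⌉.toNat

open Classical in
/-- The number of primes `p ≤ n` in the set `S` for which `W b β p` is prime. -/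
noncomputable def M (b : ℕ) (S : Set ℕ) (β : ℝ) (n : ℕ) : ℕ :=
  ((Finset.range (n + 1)).filter (fun p => p.Prime ∧ p ∈ S ∧ (W b β p).Prime)).card

open Classical in
/-- The number of odd `p ≤ n` in the set `S` for which `(b ^ p + 1) / (b + 1)` is prime. -/
noncomputable def count (b : ℕ) (S : Set ℕ) (n : ℕ) : ℕ :=
  ((Finset.range (n + 1)).filter
    (fun p => Odd p ∧ p ∈ S ∧ ((b ^ p + 1) / (b + 1)).Prime)).card

open Classical in
/-- The sum of `log p / p` over the primes `p ≤ n` in the set `S`. -/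
noncomputable def V (S : Set ℕ) (n : ℕ) : ℝ :=
  ∑ p ∈ (Finset.range (n + 1)).filter (fun p => p.Prime ∧ p ∈ S), Real.log p / p

/-- The constant of the law, `e ^ γ / log b`. -/
noncomputable def κ (b : ℕ) : ℝ := Real.exp Real.eulerMascheroniConstant / Real.log b

/-- the shift of the pair `(b, -1)` vanishes at odd exponents -/
lemma ceil_shift (b : ℕ) (hb : 2 ≤ b) {p : ℕ} (hp : Odd p) :
    ⌈(((-1 : ℤ) : ℝ)) ^ p / ((b : ℝ) - ((-1 : ℤ) : ℝ))⌉ = 0 := by
  have h1 : (((-1 : ℤ) : ℝ)) ^ p = -1 := by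
    push_cast
    exact hp.neg_one_pow
  rw [h1, Int.ceil_eq_zero_iff]
  have hb2 : (2 : ℝ) ≤ b := by exact_mod_cast hb
  have h0 : (0 : ℝ) < (b : ℝ) - ((-1 : ℤ) : ℝ) := by push_cast; linarith
  constructor
  · rw [lt_div_iff₀ h0]
    push_cast
    linarith
  · exact div_nonpos_of_nonpos_of_nonneg (by norm_num) h0.le

lemma W_eq (b : ℕ) (hb : 2 ≤ b) (β : ℝ) {p : ℕ} (hp : Odd p) :
    Pool.Agent.N176.SH.WW b (-1) β p = W b β p := by
  have h := ceil_shift b hb hp
  unfold Pool.Agent.N176.SH.WW W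
  rw [h, sub_zero]
  rfl

/-- the special values -/
lemma special {b : ℕ} (hb : 2 ≤ b) {p : ℕ} (hp : p.Prime) (hp2 : p ≠ 2) (hpd : ¬ p ∣ b + 1) :
    W b (1 / ((b : ℝ) + 1)) p * (b + 1) = b ^ p + 1 := by
  have hodd := hp.odd_of_ne_two hp2
  have h := Pool.Agent.N176.SH.spe (a := b) (b := -1) (by rw [abs_neg, abs_one]; omega)
    (IsCoprime.neg_right isCoprime_one_right) hp (by
      intro h
      apply hpd
      have h1 : ((p : ℕ) : ℤ) ∣ ((b + 1 : ℕ) : ℤ) := by push_cast; simpa using h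
      exact_mod_cast h1)
  rw [hodd.neg_one_pow, W_eq b hb _ hodd] at h
  have e : (b : ℝ) - (((-1 : ℤ)) : ℝ) = (b : ℝ) + 1 := by push_cast; ring
  rw [e] at h
  have h4 : ((W b (1 / ((b : ℝ) + 1)) p * (b + 1) : ℕ) : ℤ) = ((b ^ p + 1 : ℕ) : ℤ) := by
    push_cast
    linarith
  exact_mod_cast h4

open Classical in
/-- two counting functions whose terms agree at all numbers but `2` -/
lemma card_off_two {s t : ℕ → Prop} (h : ∀ p, p ≠ 2 → (s p ↔ t p)) :
    ∃ e : ℤ, |e| ≤ 1 ∧ ∀ n : ℕ, 2 ≤ n → ((((Finset.range (n + 1)).filter s).card : ℕ) : ℤ) =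
      (((Finset.range (n + 1)).filter t).card : ℕ) + e := by
  refine ⟨(if s 2 then 1 else 0) - (if t 2 then 1 else 0), ?_, fun n hn => ?_⟩
  · split_ifs <;> simp
  · have key : ∀ u : ℕ → Prop, ((((Finset.range (n + 1)).filter u).card : ℕ) : ℤ) =
        (((((Finset.range (n + 1)).erase 2).filter u).card : ℕ) : ℤ) + (if u 2 then 1 else 0) := by
      intro u
      have h2 : (2 : ℕ) ∈ Finset.range (n + 1) := Finset.mem_range.2 (by omega)
      conv_lhs => rw [← Finset.insert_erase h2]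
      rw [Finset.filter_insert]
      split_ifs with hu
      · rw [Finset.card_insert_of_notMem (by simp)]
        push_cast
        ring
      · simp
    have e1 : ((Finset.range (n + 1)).erase 2).filter s = ((Finset.range (n + 1)).erase 2).filter t := by
      refine Finset.filter_congr fun p hp => h p (Finset.ne_of_mem_erase hp)
    rw [key s, key t, e1]
    ring

/-- the two counting functions -/
lemma M_eq (b : ℕ) (hb : 2 ≤ b) (S : Set ℕ) (β : ℝ) : ∃ e : ℤ, |e| ≤ 1 ∧ ∀ n : ℕ, 2 ≤ n →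
    ((M b S β n : ℕ) : ℤ) = (Pool.Agent.N176.SH.MW b (-1) S β n : ℕ) + e := by
  classical
  obtain ⟨e, he, h⟩ := card_off_two (s := fun p => p.Prime ∧ p ∈ S ∧ (W b β p).Prime)
    (t := fun p => p.Prime ∧ p ∈ S ∧ (Pool.Agent.N176.SH.WW b (-1) β p).Prime) (by
      intro p hp
      by_cases hpp : p.Prime
      · simp only [W_eq b hb β (hpp.odd_of_ne_two hp)]
      · simp [hpp])
  refine ⟨e, he, fun n hn => ?_⟩
  have h1 := h n hn
  have e1 : M b S β n = ((Finset.range (n + 1)).filter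
      (fun p => p.Prime ∧ p ∈ S ∧ (W b β p).Prime)).card := rfl
  have e2 : Pool.Agent.N176.SH.MW b (-1) S β n = ((Finset.range (n + 1)).filter
      (fun p => p.Prime ∧ p ∈ S ∧ (Pool.Agent.N176.SH.WW b (-1) β p).Prime)).card := rfl
  rw [e1, e2]
  convert h1

lemma card_le_of_eventually {s t : ℕ → Prop} [DecidablePred s] [DecidablePred t] (D : ℕ)
    (h : ∀ p, D < p → s p → t p) (n : ℕ) :
    (((Finset.range (n + 1)).filter s).card : ℝ) ≤ (((Finset.range (n + 1)).filter t).card : ℝ) +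
      (D + 1 : ℕ) := by
  have h1 : (Finset.range (n + 1)).filter s ⊆ (Finset.range (n + 1)).filter t ∪ Finset.range (D + 1) := by
    intro p hp
    rw [Finset.mem_filter] at hp
    rw [Finset.mem_union, Finset.mem_filter]
    by_cases hD : D < p
    · exact Or.inl ⟨hp.1, h p hD hp.2⟩
    · exact Or.inr (Finset.mem_range.2 (by omega))
  have h2 := (Finset.card_le_card h1).trans (Finset.card_union_le _ _)
  rw [Finset.card_range] at h2
  exact_mod_cast h2

/-- the counting function of the question and the one of its special point differ by a bounded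
amount -/
lemma count_close {b : ℕ} (hb : 2 ≤ b) :
    ∃ D : ℝ, ∀ (S : Set ℕ) (n : ℕ), |(M b S (1 / ((b : ℝ) + 1)) n : ℝ) - count b S n| ≤ D := by
  classical
  have key : ∀ p : ℕ, b + 2 < p → (p.Prime ∧ (W b (1 / ((b : ℝ) + 1)) p).Prime ↔
      Odd p ∧ ((b ^ p + 1) / (b + 1)).Prime) := by
    intro p hD
    have hval : p.Prime → (b ^ p + 1) / (b + 1) = W b (1 / ((b : ℝ) + 1)) p := by
      intro hp
      rw [← special hb hp (by omega) (fun h => by
        have := Nat.le_of_dvd (by omega) h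
        omega), Nat.mul_div_cancel _ (by omega)]
    constructor
    · rintro ⟨hp, h1⟩
      exact ⟨hp.odd_of_ne_two (by omega), by rw [hval hp]; exact h1⟩
    · rintro ⟨h1, h2⟩
      have hp := Pool.Agent.H473R4.wagstaff_prime_index hb h1 h2
      exact ⟨hp, by rw [← hval hp]; exact h2⟩
  refine ⟨((b + 2 + 1 : ℕ) : ℝ), fun S n => ?_⟩
  have e1 : (M b S (1 / ((b : ℝ) + 1)) n : ℝ) ≤ count b S n + ((b + 2 + 1 : ℕ) : ℝ) :=
    card_le_of_eventually (b + 2)
      (fun p hD hp => ⟨((key p hD).1 ⟨hp.1, hp.2.2⟩).1, hp.2.1, ((key p hD).1 ⟨hp.1, hp.2.2⟩).2⟩) n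
  have e2 : (count b S n : ℝ) ≤ M b S (1 / ((b : ℝ) + 1)) n + ((b + 2 + 1 : ℕ) : ℝ) :=
    card_le_of_eventually (b + 2)
      (fun p hD hp => ⟨((key p hD).2 ⟨hp.1, hp.2.2⟩).1, hp.2.1, ((key p hD).2 ⟨hp.1, hp.2.2⟩).2⟩) n
  rw [abs_le]
  constructor <;> linarith

/-- The special values; the window law and the law of the iterated logarithm for all bases at once;
the same for the exponents in an arbitrary set of primes of infinite weight. -/
theorem result :
    (∀ b : ℕ, 2 ≤ b → ∀ p : ℕ, p.Prime → p ≠ 2 → ¬ p ∣ b + 1 →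
      W b (1 / ((b : ℝ) + 1)) p * (b + 1) = b ^ p + 1) ∧
    (∀ b : ℕ, 2 ≤ b → ∃ D : ℝ, ∀ (S : Set ℕ) (n : ℕ),
      |(M b S (1 / ((b : ℝ) + 1)) n : ℝ) - count b S n| ≤ D) ∧
    (∃ C : ℕ → ℝ, ∀ᵐ β : ℝ, 0 < β → ∀ b : ℕ, 2 ≤ b →
      (∀ᶠ n : ℕ in atTop, ∀ n' ≥ n,
        |((M b Set.univ β n' : ℝ) - M b Set.univ β n) - κ b * Real.log ((n' : ℝ) / n)| ≤
          C b * (√(Real.log ((n' : ℝ) / n) * Real.log (Real.log n')) + Real.log (Real.log n'))) ∧
      (∀ᶠ n : ℕ in atTop, |(M b Set.univ β n : ℝ) - κ b * Real.log n| ≤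
        C b * √(Real.log n * Real.log (Real.log (Real.log n))))) ∧
    (∃ C : ℕ → ℝ, ∀ S : Set ℕ, Tendsto (fun n => V S n) atTop atTop →
      ∀ᵐ β : ℝ, 0 < β → ∀ b : ℕ, 2 ≤ b →
      (∀ᶠ n : ℕ in atTop, ∀ n' ≥ n,
        |((M b S β n' : ℝ) - M b S β n) - κ b * (V S n' - V S n)| ≤
          C b * (√((V S n' - V S n) * Real.log (V S n')) + Real.log (V S n'))) ∧
      (∀ᶠ n : ℕ in atTop, |(M b S β n : ℝ) - κ b * V S n| ≤
        C b * √(V S n * Real.log (Real.log (V S n))))) := by
  have eV : ∀ S n, Pool.Agent.N176.OW.VS S n = V S n := fun S n => rfl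
  have ek : ∀ a, Pool.Agent.N176.OW.kap a = κ a := fun a => rfl
  have hb1 : ∀ b : ℕ, 2 ≤ b → |(-1 : ℤ)| < (b : ℤ) := by
    intro b hb
    rw [abs_neg, abs_one]
    omega
  -- the passage from `MW` to `M`
  have win : ∀ (b : ℕ), 2 ≤ b → ∀ (S : Set ℕ) (β : ℝ) (F : ℕ → ℕ → ℝ) (G : ℕ → ℕ → ℝ),
      (∀ᶠ n : ℕ in atTop, ∀ n' ≥ n,
        |((Pool.Agent.N176.SH.MW b (-1) S β n' : ℝ) - Pool.Agent.N176.SH.MW b (-1) S β n) - F n n'| ≤
          G n n') →
      (∀ᶠ n : ℕ in atTop, ∀ n' ≥ n, |((M b S β n' : ℝ) - M b S β n) - F n n'| ≤ G n n') := by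
    intro b hb S β F G h
    obtain ⟨e, _, he⟩ := M_eq b hb S β
    filter_upwards [h, eventually_ge_atTop 2] with n hn hn2 n' hn'
    have h1 : ((M b S β n : ℝ)) = Pool.Agent.N176.SH.MW b (-1) S β n + e := by
      exact_mod_cast he n hn2
    have h2 : ((M b S β n' : ℝ)) = Pool.Agent.N176.SH.MW b (-1) S β n' + e := by
      exact_mod_cast he n' (by omega)
    rw [h1, h2]
    have h3 := hn n' hn'
    convert h3 using 2
    ring
  have lil : ∀ (b : ℕ), 2 ≤ b → ∀ (S : Set ℕ) (β : ℝ) (F : ℕ → ℝ) (G : ℕ → ℝ) (C : ℝ),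
      (∀ᶠ n : ℕ in atTop, |(Pool.Agent.N176.SH.MW b (-1) S β n : ℝ) - F n| ≤ C * G n) →
      (∀ᶠ n : ℕ in atTop, 1 ≤ G n) →
      (∀ᶠ n : ℕ in atTop, |(M b S β n : ℝ) - F n| ≤ (C + 1) * G n) := by
    intro b hb S β F G C h hG
    obtain ⟨e, he1, he⟩ := M_eq b hb S β
    filter_upwards [h, eventually_ge_atTop 2, hG] with n hn hn2 hG1
    have h1 : ((M b S β n : ℝ)) = Pool.Agent.N176.SH.MW b (-1) S β n + e := by
      exact_mod_cast he n hn2
    have h3 : |(e : ℝ)| ≤ 1 := by exact_mod_cast he1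
    rw [h1]
    calc |(Pool.Agent.N176.SH.MW b (-1) S β n : ℝ) + e - F n|
        = |((Pool.Agent.N176.SH.MW b (-1) S β n : ℝ) - F n) + e| := by congr 1; ring
      _ ≤ |(Pool.Agent.N176.SH.MW b (-1) S β n : ℝ) - F n| + |(e : ℝ)| := abs_add_le _ _
      _ ≤ C * G n + 1 := add_le_add hn h3
      _ ≤ (C + 1) * G n := by linarith
  have big : ∀ f : ℕ → ℝ, Tendsto f atTop atTop →
      ∀ᶠ n : ℕ in atTop, 1 ≤ √(f n * Real.log (Real.log (f n))) := by
    intro f hf
    have h1 : ∀ᶠ n : ℕ in atTop, 1 ≤ f n := hf.eventually_ge_atTop 1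
    have h2 : ∀ᶠ n : ℕ in atTop, 1 ≤ Real.log (Real.log (f n)) :=
      ((Real.tendsto_log_atTop.comp (Real.tendsto_log_atTop.comp hf))).eventually_ge_atTop 1
    filter_upwards [h1, h2] with n h1 h2
    rw [Real.one_le_sqrt]
    exact one_le_mul_of_one_le_of_one_le h1 h2
  refine ⟨fun b hb p hp hp2 hpd => special hb hp hp2 hpd, fun b hb => count_close hb, ?_, ?_⟩
  · obtain ⟨C, hC⟩ := Pool.Agent.N176.SH.pairs_univ Pool.Agent.N176.SH.All.win'
      Pool.Agent.N176.SH.All.lil' Pool.Agent.N372.SH.okp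
    simp only [ek] at hC
    refine ⟨fun b => C b (-1) + 1, ?_⟩
    filter_upwards [hC] with β h hβ b hb
    obtain ⟨h1, h2⟩ := h hβ b (-1) (by rw [abs_neg, abs_one]) (hb1 b hb)
    refine ⟨?_, ?_⟩
    · have h3 := win b hb Set.univ β _ _ h1
      filter_upwards [h3, eventually_ge_atTop 3] with n hn hn3 n' hn'
      refine (hn n' hn').trans ?_
      have hL : 0 ≤ Real.log (Real.log n') := by
        apply Real.log_nonneg
        rw [Real.le_log_iff_exp_le (by have : 0 < n' := by omega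
                                       exact_mod_cast this)]
        have : (3 : ℝ) ≤ n' := by exact_mod_cast hn3.trans hn'
        linarith [Real.exp_one_lt_d9]
      have h4 : 0 ≤ √(Real.log ((n' : ℝ) / n) * Real.log (Real.log n')) + Real.log (Real.log n') :=
        add_nonneg (Real.sqrt_nonneg _) hL
      exact mul_le_mul_of_nonneg_right (by linarith) h4
    · refine lil b hb Set.univ β _ _ (C b (-1)) h2 ?_
      exact big (fun n : ℕ => Real.log n) (Real.tendsto_log_atTop.comp tendsto_natCast_atTop_atTop)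
  · obtain ⟨C, hC⟩ := Pool.Agent.N176.SH.pairs_set Pool.Agent.N176.SH.All.win'
      Pool.Agent.N176.SH.All.lil' Pool.Agent.N372.SH.okp
    simp only [ek, eV] at hC
    refine ⟨fun b => C b (-1) + 1, fun S hS => ?_⟩
    filter_upwards [hC S hS] with β h hβ b hb
    obtain ⟨h1, h2⟩ := h hβ b (-1) (by rw [abs_neg, abs_one]) (hb1 b hb)
    refine ⟨?_, ?_⟩
    · have h3 := win b hb S β _ _ h1
      have hV1 : ∀ᶠ n : ℕ in atTop, 1 ≤ V S n := hS.eventually_ge_atTop 1
      filter_upwards [h3, hV1] with n hn hn1 n' hn'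
      refine (hn n' hn').trans ?_
      have hmono : V S n ≤ V S n' := by
        rw [← eV, ← eV]
        exact Pool.Agent.N176.OW.VS_mono S hn'
      have hL : 0 ≤ Real.log (V S n') := Real.log_nonneg (hn1.trans hmono)
      have h4 : 0 ≤ √((V S n' - V S n) * Real.log (V S n')) + Real.log (V S n') :=
        add_nonneg (Real.sqrt_nonneg _) hL
      exact mul_le_mul_of_nonneg_right (by linarith) h4
    · exact lil b hb S β _ _ (C b (-1)) h2 (big (fun n : ℕ => V S n) hS)

end Pool.Agent.Results.MP_ce8d0c_nt.WindowsEveryBase
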